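import Pool.Agent.Helper80.OWN.SemCopies

/-! t copies of two disjoint cycles: super edge-magic iff t (m + n) is odd
(own statement beside S07059, the case t = 1). -/

set_option autoImplicit false

namespace Pool.Agent.Results.MP_095aaa_co.OddCopies

open Pool.Agent.Helper80.OWN

theorem result (t m n : ℕ) (ht : 1 ≤ t) (hm : 3 ≤ m) (hn : 3 ≤ n)
    (h : ¬ ((m = 3 ∧ n = 4) ∨ (m = 4 ∧ n = 3))) :
    IsSuperEdgeMagic (copies t (SimpleGraph.cycleGraph m ⊕g SimpleGraph.cycleGraph n)) ↔
      Odd (t * (m + n)) :=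
  oddCopies t m n ht hm hn h

end Pool.Agent.Results.MP_095aaa_co.OddCopies
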